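import Mathlib

/-!
# MP_51bcab_lc : a maximal submonoid whose minimal generating set is not a minimal factor generator
-/

open Set

namespace Pool.Agent.Results.MP_51bcab_lc.NotMinimal

variable {α : Type}

/-- `F(L)`: the factors of the words of `L`. -/
def Fac (L : Set (List α)) : Set (List α) := {u | ∃ x y, x ++ u ++ y ∈ L}

/-- `X*`: the submonoid generated by `X`. -/
def star (X : Set (List α)) : Set (List α) := {w | ∃ l : List (List α), (∀ x ∈ l, x ∈ X) ∧
  l.flatten = w}

/-- `N` is a submonoid of the free monoid. -/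
def IsSubmonoid (N : Set (List α)) : Prop := [] ∈ N ∧ ∀ u ∈ N, ∀ v ∈ N, u ++ v ∈ N

/-- `X` is the minimal generating set of `X*`: the empty word is not in `X` and no element of `X`
is a product of two or more elements of `X`. -/
def MinGen (X : Set (List α)) : Prop :=
  [] ∉ X ∧ ∀ l : List (List α), 2 ≤ l.length → (∀ x ∈ l, x ∈ X) → l.flatten ∉ X

/-- `M` is a maximal submonoid in `L`. -/
def MaximalIn (M L : Set (List α)) : Prop :=
  IsSubmonoid M ∧ M ⊆ L ∧ ∀ N, IsSubmonoid N → M ⊆ N → N ⊆ L → N = M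

/-- `X` is a minimal factor generator. -/
def MinFactorGen (X : Set (List α)) : Prop := ∀ Y, Y ⊂ X → Fac (star Y) ≠ Fac (star X)

lemma star_isSubmonoid (X : Set (List α)) : IsSubmonoid (star X) := by
  refine ⟨⟨[], by simp, rfl⟩, ?_⟩
  rintro u ⟨l, hl, rfl⟩ v ⟨l', hl', rfl⟩
  refine ⟨l ++ l', ?_, by simp⟩
  intro x hx
  rcases List.mem_append.1 hx with h | h
  · exact hl x h
  · exact hl' x h

lemma star_mono {X Y : Set (List α)} (h : Y ⊆ X) : star Y ⊆ star X := by
  rintro w ⟨l, hl, rfl⟩
  exact ⟨l, fun x hx => h (hl x hx), rfl⟩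

lemma Fac_mono {L L' : Set (List α)} (h : L ⊆ L') : Fac L ⊆ Fac L' := by
  rintro u ⟨x, y, hxy⟩
  exact ⟨x, y, h hxy⟩

lemma mem_star_of_mem {X : Set (List α)} {x : List α} (h : x ∈ X) : x ∈ star X :=
  ⟨[x], by simpa using h, by simp⟩

lemma star_induction {X : Set (List α)} {p : List α → Prop} (h0 : p [])
    (h1 : ∀ x ∈ X, ∀ w, p w → p (x ++ w)) : ∀ w ∈ star X, p w := by
  rintro w ⟨l, hl, rfl⟩
  induction l with
  | nil => exact h0
  | cons x l ih =>
    rw [List.flatten_cons]
    exact h1 x (hl x (by simp)) _ (ih fun y hy => hl y (by simp [hy]))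

/-- The letter `false` is `a`, the letter `true` is `b`. The word `a^l b a^r`. -/
def xw (l r : ℕ) : List Bool := List.replicate l false ++ (true :: List.replicate r false)

/-- `X = {b, ba, baa, ab, aba, abaa}` -/
def X : Set (List Bool) := {w | ∃ l r, l ≤ 1 ∧ r ≤ 2 ∧ w = xw l r}

/-- `Y = {b, baa, ab, abaa}` -/
def Y : Set (List Bool) := {w | ∃ l r, l ≤ 1 ∧ (r = 0 ∨ r = 2) ∧ w = xw l r}

/-- `w` read after `n` letters `a` does not lead to four consecutive letters `a`. -/
def ok : ℕ → List Bool → Prop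
  | _, [] => True
  | n, false :: w => n < 3 ∧ ok (n + 1) w
  | _, true :: w => ok 0 w

lemma ok_mono {n m : ℕ} (h : m ≤ n) {w : List Bool} (hw : ok n w) : ok m w := by
  induction w generalizing n m with
  | nil => trivial
  | cons c w ih =>
    cases c
    · exact ⟨lt_of_le_of_lt h hw.1, ih (Nat.succ_le_succ h) hw.2⟩
    · exact hw

lemma ok_left {n : ℕ} {u v : List Bool} (h : ok n (u ++ v)) : ok n u := by
  induction u generalizing n with
  | nil => trivial
  | cons c u ih =>
    cases c
    · exact ⟨h.1, ih h.2⟩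
    · exact ih (n := 0) h

lemma ok_right {n : ℕ} {u v : List Bool} (h : ok n (u ++ v)) : ok 0 v := by
  induction u generalizing n with
  | nil => exact ok_mono (Nat.zero_le _) h
  | cons c u ih =>
    cases c
    · exact ih h.2
    · exact ih (n := 0) h

lemma ok_rep {n g : ℕ} {v : List Bool} (hn : n ≤ 3) :
    ok n (List.replicate g false ++ v) ↔ n + g ≤ 3 ∧ ok (n + g) v := by
  induction g generalizing n with
  | zero => simp [hn]
  | succ g ih =>
    rw [List.replicate_succ, List.cons_append]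
    show n < 3 ∧ ok (n + 1) (List.replicate g false ++ v) ↔ _
    constructor
    · rintro ⟨h1, h2⟩
      obtain ⟨h3, h4⟩ := (ih (by omega)).1 h2
      exact ⟨by omega, by rw [show n + (g + 1) = n + 1 + g by ring]; exact h4⟩
    · rintro ⟨h1, h2⟩
      refine ⟨by omega, (ih (by omega)).2 ⟨by omega, ?_⟩⟩
      rw [show n + 1 + g = n + (g + 1) by ring]; exact h2

/-- the word `a^g0 b a^g1 b a^g2 …` -/
def wd (g0 : ℕ) : List ℕ → List Bool
  | [] => List.replicate g0 false
  | g :: gs => List.replicate g0 false ++ (true :: wd g gs)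

lemma exists_wd (w : List Bool) : ∃ g0 gs, w = wd g0 gs := by
  induction w with
  | nil => exact ⟨0, [], rfl⟩
  | cons c w ih =>
    obtain ⟨g0, gs, rfl⟩ := ih
    cases c
    · refine ⟨g0 + 1, gs, ?_⟩
      cases gs <;> simp [wd, List.replicate_succ]
    · exact ⟨0, g0 :: gs, rfl⟩

lemma wd_split (l r : ℕ) (gs : List ℕ) :
    wd (r + l) gs = List.replicate r false ++ wd l gs := by
  cases gs with
  | nil => exact List.replicate_add r l false
  | cons g gs =>
    show List.replicate (r + l) false ++ _ = List.replicate r false ++ (List.replicate l false ++ _)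
    rw [← List.append_assoc, ← List.replicate_add]

lemma wd_snoc (g0 : ℕ) (gs : List ℕ) : wd g0 (gs ++ [0]) = wd g0 gs ++ [true] := by
  induction gs generalizing g0 with
  | nil => simp [wd]
  | cons g gs ih => simp [wd, ih]

/-- if all gaps but the last one are `≤ 3` and the last one is `≤ 2`, then the word is in `X*` -/
lemma wd_mem_X (gs : List ℕ) (g l : ℕ) (hl : l ≤ 1) (h : ok 0 (wd g gs ++ [false, true])) :
    wd l (g :: gs) ∈ star X := by
  induction gs generalizing g l with
  | nil =>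
    have h1 : g ≤ 2 := by
      simp only [wd] at h
      have h2 := ((ok_rep (by omega)).1 h).2
      have h3 : 0 + g < 3 := h2.1
      omega
    exact mem_star_of_mem ⟨l, g, hl, h1, rfl⟩
  | cons g' gs ih =>
    simp only [wd, List.append_assoc] at h
    obtain ⟨h1, h2⟩ := (ok_rep (by omega)).1 h
    have h3 : ok 0 (wd g' gs ++ [false, true]) := h2
    obtain ⟨r, l', hr, hl', hg⟩ : ∃ r l', r ≤ 2 ∧ l' ≤ 1 ∧ g = r + l' := by
      rcases Nat.lt_or_ge g 3 with h4 | h4
      · exact ⟨g, 0, by omega, by omega, by omega⟩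
      · exact ⟨2, 1, by omega, by omega, by omega⟩
    have h5 := ih g' l' hl' h3
    have h6 : wd l (g :: g' :: gs) = xw l r ++ wd l' (g' :: gs) := by
      rw [hg]
      show List.replicate l false ++ (true :: wd (r + l') (g' :: gs)) = _
      rw [wd_split]
      simp [xw]
    rw [h6]
    exact (star_isSubmonoid X).2 _ (mem_star_of_mem ⟨l, r, hl, hr, rfl⟩) _ h5

/-- if all gaps but the last one are `≤ 3` and the last one is `0`, then the word is in `Y*` -/
lemma wd_mem_Y (gs : List ℕ) (g l : ℕ) (hl : l ≤ 1) (h : ok 0 (wd g gs)) :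
    wd l (g :: gs ++ [0]) ∈ star Y := by
  induction gs generalizing g l with
  | nil =>
    have h1 : g ≤ 3 := by
      simp only [wd] at h
      have h2 := (ok_rep (v := []) (n := 0) (by omega)).1 (by simpa using h)
      omega
    obtain ⟨r, l', hr, hl', hg⟩ : ∃ r l', (r = 0 ∨ r = 2) ∧ l' ≤ 1 ∧ g = r + l' := by
      rcases Nat.lt_or_ge g 2 with h4 | h4
      · exact ⟨0, g, by omega, by omega, by omega⟩
      · exact ⟨2, g - 2, by omega, by omega, by omega⟩
    have h6 : wd l ([g] ++ [0]) = xw l r ++ xw l' 0 := by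
      rw [hg]
      show List.replicate l false ++ (true :: wd (r + l') [0]) = _
      rw [wd_split]
      simp [xw, wd]
    rw [h6]
    exact (star_isSubmonoid Y).2 _ (mem_star_of_mem ⟨l, r, hl, hr, rfl⟩) _
      (mem_star_of_mem ⟨l', 0, hl', Or.inl rfl, rfl⟩)
  | cons g' gs ih =>
    simp only [wd] at h
    obtain ⟨h1, h2⟩ := (ok_rep (by omega)).1 h
    have h3 : ok 0 (wd g' gs) := h2
    obtain ⟨r, l', hr, hl', hg⟩ : ∃ r l', (r = 0 ∨ r = 2) ∧ l' ≤ 1 ∧ g = r + l' := by
      rcases Nat.lt_or_ge g 2 with h4 | h4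
      · exact ⟨0, g, by omega, by omega, by omega⟩
      · exact ⟨2, g - 2, by omega, by omega, by omega⟩
    have h5 := ih g' l' hl' h3
    have h6 : wd l (g :: g' :: gs ++ [0]) = xw l r ++ wd l' (g' :: gs ++ [0]) := by
      rw [hg]
      show List.replicate l false ++ (true :: wd (r + l') (g' :: gs ++ [0])) = _
      rw [wd_split]
      simp [xw]
    rw [h6]
    exact (star_isSubmonoid Y).2 _ (mem_star_of_mem ⟨l, r, hl, hr, rfl⟩) _ h5

lemma ok_of_star {w : List Bool} (h : w ∈ star X) : ok 2 w := by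
  refine star_induction (p := fun w => ok 2 w) trivial ?_ w h
  rintro x ⟨l, r, hl, hr, rfl⟩ w hw
  simp only [xw, List.append_assoc, List.cons_append]
  refine (ok_rep (by omega)).2 ⟨by omega, ?_⟩
  show ok 0 _
  exact (ok_rep (by omega)).2 ⟨by omega, ok_mono (by omega) hw⟩

lemma ok_of_fac {w : List Bool} (h : w ∈ Fac (star X)) : ok 0 w := by
  obtain ⟨x, y, hxy⟩ := h
  exact ok_right (ok_left (ok_of_star hxy))

lemma fac_of_ok {w : List Bool} (h : ok 0 w) : w ∈ Fac (star Y) := by
  obtain ⟨g0, gs, rfl⟩ := exists_wd w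
  refine ⟨[true], [true], ?_⟩
  have h1 := wd_mem_Y gs g0 0 (by omega) h
  rw [wd_snoc] at h1
  simpa [wd] using h1

lemma Y_sub_X : Y ⊆ X := by
  rintro w ⟨l, r, hl, hr, rfl⟩
  exact ⟨l, r, hl, by omega, rfl⟩

lemma fac_eq : Fac (star Y) = Fac (star X) :=
  (Fac_mono (star_mono Y_sub_X)).antisymm fun _ hw => fac_of_ok (ok_of_fac hw)

lemma count_xw (l r : ℕ) : (xw l r).count true = 1 := by
  simp [xw, List.count_replicate]

lemma minGen_X : MinGen X := by
  refine ⟨?_, ?_⟩
  · rintro ⟨l, r, _, _, h⟩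
    have := congrArg (List.count true) h
    rw [count_xw] at this
    simp at this
  · rintro l hl hlX ⟨a, b, _, _, h⟩
    have h1 := congrArg (List.count true) h
    rw [count_xw, List.count_flatten] at h1
    have h2 : l.map (List.count true) = List.replicate l.length 1 := by
      rw [List.eq_replicate_iff]
      refine ⟨by simp, ?_⟩
      intro n hn
      obtain ⟨x, hx, rfl⟩ := List.mem_map.1 hn
      obtain ⟨a, b, _, _, rfl⟩ := hlX x hx
      exact count_xw a b
    rw [h2] at h1
    simp at h1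
    omega

lemma xw_inj {l r l' r' : ℕ} (h : xw l r = xw l' r') : l = l' ∧ r = r' := by
  have h1 : l = l' := by
    have h2 := congrArg (List.takeWhile (fun c => !c)) h
    simp only [xw] at h2
    rw [List.takeWhile_append_of_pos (by simp), List.takeWhile_append_of_pos (by simp)] at h2
    simpa using congrArg List.length h2
  subst h1
  refine ⟨rfl, ?_⟩
  simpa [xw] using congrArg List.length h

lemma maximal_X : MaximalIn (star X) (Fac (star X)) := by
  refine ⟨star_isSubmonoid X, fun w hw => ⟨[], [], by simpa using hw⟩, ?_⟩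
  intro N hN hXN hNF
  refine Subset.antisymm ?_ hXN
  intro w hw
  have hok : ∀ v ∈ N, ok 0 v := fun v hv => ok_of_fac (hNF hv)
  obtain ⟨g0, gs, rfl⟩ := exists_wd w
  cases gs with
  | nil =>
    by_cases h0 : g0 = 0
    · subst h0
      exact (star_isSubmonoid X).1
    · exfalso
      have h1 := hN.2 _ hw _ hw
      have h2 := hok _ (hN.2 _ h1 _ h1)
      simp only [wd] at h2
      rw [List.append_assoc] at h2
      have h3 := (ok_rep (n := 0) (by omega)).1 h2
      have h4 := (ok_rep (n := 0 + g0) h3.1).1 h3.2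
      have h5 := (ok_rep (n := 0 + g0 + g0) h4.1).1 h4.2
      have h6 := (ok_rep (n := 0 + g0 + g0 + g0) (g := g0) (v := []) h5.1).1 (by simpa using h5.2)
      omega
  | cons g gs =>
    have hbaa : xw 0 2 ∈ N := hXN (mem_star_of_mem ⟨0, 2, by omega, by omega, rfl⟩)
    have hab : xw 1 0 ∈ N := hXN (mem_star_of_mem ⟨1, 0, by omega, by omega, rfl⟩)
    have h1 : ok 2 (wd g0 (g :: gs)) := by
      have h := hok _ (hN.2 _ hbaa _ hw)
      exact h.2.2
    have h2 : ok 0 (wd g0 (g :: gs) ++ [false, true]) := hok _ (hN.2 _ hw _ hab)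
    have h3 : g0 ≤ 1 := by
      simp only [wd] at h1
      have := ((ok_rep (by omega)).1 h1).1
      omega
    have h4 : ok 0 (wd g gs ++ [false, true]) := by
      simp only [wd, List.append_assoc] at h2
      exact ((ok_rep (by omega)).1 h2).2
    exact wd_mem_X gs g g0 h3 h4

/-- There are a finite set `X` of words over a two-letter alphabet and `Y ⊂ X` such that `X` is the
minimal generating set of `X*`, `X*` is `F(X*)`-maximal, and `F(Y*) = F(X*)`. -/
theorem result : ∃ X Y : Set (List Bool), X.Finite ∧ Y ⊂ X ∧ MinGen X ∧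
    MaximalIn (star X) (Fac (star X)) ∧ Fac (star Y) = Fac (star X) ∧ ¬ MinFactorGen X := by
  have hss : Y ⊂ X := by
    refine ⟨Y_sub_X, fun h => ?_⟩
    obtain ⟨l, r, _, hr, h1⟩ := h (show xw 0 1 ∈ X from ⟨0, 1, by omega, by omega, rfl⟩)
    have := (xw_inj h1).2
    omega
  refine ⟨X, Y, ?_, hss, minGen_X, maximal_X, fac_eq, fun h => h Y hss fac_eq⟩
  have h1 : X ⊆ (fun p : ℕ × ℕ => xw p.1 p.2) '' (Set.Iic 1 ×ˢ Set.Iic 2) := by
    rintro w ⟨l, r, hl, hr, rfl⟩
    exact ⟨(l, r), ⟨hl, hr⟩, rfl⟩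
  exact (((Set.finite_Iic 1).prod (Set.finite_Iic 2)).image _).subset h1

end Pool.Agent.Results.MP_51bcab_lc.NotMinimal
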